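import Pool.Agent.H78.CY.FinI

/-!
MP_63e0db_al, Q1 in full: every periodic locally soluble group `G` with a finite nilpotent subgroup
`H` whose centraliser is Chernikov has a finite normal series with locally nilpotent factors;
together with the uniform theorem on finite soluble groups from which it is deduced.
-/

namespace Pool.Agent.Results.MP_63e0db_al.NilpotentOperators

open H78TP

universe u

theorem result :
    (∀ (G : Type u) [Group G] (H : Subgroup G) [Finite H],
      (∀ g : G, IsOfFinOrder g) → LocallySoluble G → Group.IsNilpotent H →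
      IsChernikov (Subgroup.centralizer (H : Set G)) → HasSeries G) ∧
    (∀ n m j : ℕ, ∃ h : ℕ, ∀ (F : Type u) [Group F] [Finite F] (H : Subgroup F),
      Group.IsSolvable F → Group.IsNilpotent H → Nat.card H ≤ n →
      (∀ s : ℕ, s.Prime → RB s (j * s ^ m) (Subgroup.centralizer (H : Set F))) →
      lns (⊤ : Subgroup F) h = ⊥) := by
  constructor
  · intro G _ H _ hG hs hnil hch
    exact H78CY.finI hG hs H hnil hch
  · intro n m j
    obtain ⟨h, hh⟩ := H78CY.finN.{u} n m j
    exact ⟨h, fun F _ _ H hsol hnil hn hRB => hh F H ⟨hsol, hnil, hn, hRB⟩⟩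

end Pool.Agent.Results.MP_63e0db_al.NilpotentOperators
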